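import Mathlib

/-!
Analyticity is preserved by linear condensations of spaces of continuous functions with the
topology of pointwise convergence.
-/

namespace Pool.Agent.Results.MP_1f8704_gt.LinearCondensation

open Set Filter Topology TopologicalSpace

universe u v

/-- `C_p(X)`: the real continuous functions on `X` with the topology of pointwise convergence
(the subspace topology of the product `X → ℝ`). -/
def Cp (X : Type u) [TopologicalSpace X] : Submodule ℝ (X → ℝ) where
  carrier := {f | Continuous f}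
  add_mem' := fun hf hg => Continuous.add hf hg
  zero_mem' := continuous_zero
  smul_mem' := fun c _ hf => Continuous.const_smul hf c

/-- A condensation is a continuous bijection. -/
def IsCondensation {A : Type u} {B : Type v} [TopologicalSpace A] [TopologicalSpace B]
    (φ : A → B) : Prop :=
  Continuous φ ∧ Function.Bijective φ

/-- A space is analytic if it is a continuous image of the space of irrationals `ω^ω`. -/
def IsAnalytic (X : Type u) [TopologicalSpace X] : Prop :=
  ∃ p : (ℕ → ℕ) → X, Continuous p ∧ Function.Surjective p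

section Basic

variable {X : Type u} [TopologicalSpace X]

lemma Cp.continuous (f : Cp X) : Continuous (f : X → ℝ) := f.2

/-- The evaluation functionals. -/
def ev (x : X) : Cp X →ₗ[ℝ] ℝ where
  toFun f := (f : X → ℝ) x
  map_add' _ _ := rfl
  map_smul' _ _ := rfl

@[simp] lemma ev_apply (x : X) (f : Cp X) : ev x f = (f : X → ℝ) x := rfl

lemma continuous_ev (x : X) : Continuous (fun f : Cp X => (f : X → ℝ) x) :=
  (continuous_apply x).comp continuous_subtype_val

lemma topology_eq : (inferInstance : TopologicalSpace (Cp X)) =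
    ⨅ x : X, induced (ev x) inferInstance := by
  change induced Subtype.val (⨅ x : X, induced (fun f : X → ℝ => f x) inferInstance) = _
  rw [induced_iInf]
  congr 1
  ext1 x
  rw [induced_compose]
  rfl

/-- A continuous linear functional on `C_p(X)` is a finite linear combination of evaluations. -/
lemma functional_eq (φ : Cp X →ₗ[ℝ] ℝ) (hφ : Continuous φ) :
    ∃ (n : ℕ) (c : Fin n → ℝ) (x : Fin n → X), ∀ f : Cp X, φ f = ∑ i, c i * (f : X → ℝ) (x i) := by
  have h1 : φ ∈ Submodule.span ℝ (range (ev : X → Cp X →ₗ[ℝ] ℝ)) := by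
    rw [LinearMap.mem_span_iff_continuous, ← topology_eq]
    exact hφ
  rw [Finsupp.mem_span_range_iff_exists_finsupp] at h1
  obtain ⟨c, hc⟩ := h1
  refine ⟨c.support.card, fun i => c (c.support.equivFin.symm i),
    fun i => c.support.equivFin.symm i, fun f => ?_⟩
  rw [← hc, Finsupp.sum, LinearMap.sum_apply, ← Finset.sum_coe_sort]
  rw [← Equiv.sum_comp c.support.equivFin.symm]
  rfl

end Basic

section Analytic

lemma dense_of_second_countable {α : Type u} [TopologicalSpace α] [SecondCountableTopology α]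
    (A : Set α) : ∃ D ⊆ A, D.Countable ∧ A ⊆ closure D := by
  obtain ⟨D, hDc, hDd⟩ := exists_countable_dense A
  refine ⟨Subtype.val '' D, ?_, hDc.image _, ?_⟩
  · rintro _ ⟨a, _, rfl⟩
    exact a.2
  · exact Subtype.dense_iff.mp hDd

lemma dense_of_finer {α : Type u} (t₁ t₂ : TopologicalSpace α) (hle : t₁ ≤ t₂)
    (hc : @SecondCountableTopology α t₁) (A : Set α) :
    ∃ D ⊆ A, D.Countable ∧ A ⊆ @closure α t₂ D := by
  obtain ⟨D, h1, h2, h3⟩ := @dense_of_second_countable α t₁ hc A
  exact ⟨D, h1, h2, h3.trans (closure.mono hle)⟩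

variable {X : Type u} [TopologicalSpace X] {p : (ℕ → ℕ) → X}

/-- The members of the countable network of `C_p(X)`. -/
def netSet (p : (ℕ → ℕ) → X) (t : (Set (ℕ → ℕ)) × ℚ × ℚ) : Set (Cp X) :=
  {f | ∀ z ∈ t.1, (t.2.1 : ℝ) < (f : X → ℝ) (p z) ∧ (f : X → ℝ) (p z) < (t.2.2 : ℝ)}

/-- The countable family generating a topology finer than that of `C_p(X)`. -/
def netFam (p : (ℕ → ℕ) → X) : Set (Set (Cp X)) :=
  netSet p '' (countableBasis (ℕ → ℕ) ×ˢ (univ ×ˢ univ))

lemma netFam_countable : (netFam p).Countable :=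
  ((countable_countableBasis _).prod (countable_univ.prod countable_univ)).image _

lemma netFam_le (hp : Continuous p) (hs : Function.Surjective p) :
    generateFrom (netFam p) ≤ (instTopologicalSpaceSubtype : TopologicalSpace (Cp X)) := by
  have key : ∀ x : X, @Continuous _ _ (generateFrom (netFam p)) _
      (fun f : Cp X => (f : X → ℝ) x) := by
    intro x
    obtain ⟨z, rfl⟩ := hs x
    rw [@IsTopologicalBasis.continuous_iff _ _ (generateFrom (netFam p)) _ _
      Real.isTopologicalBasis_Ioo_rat]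
    intro s hs'
    simp only [mem_iUnion, mem_singleton_iff] at hs'
    obtain ⟨a, b, hab, rfl⟩ := hs'
    have : (fun f : Cp X => (f : X → ℝ) (p z)) ⁻¹' Ioo (a : ℝ) b =
        ⋃ U ∈ {U | U ∈ countableBasis (ℕ → ℕ) ∧ z ∈ U}, netSet p (U, a, b) := by
      ext f
      simp only [mem_preimage, mem_iUnion]
      constructor
      · intro hf
        have ho : IsOpen ((fun z => (f : X → ℝ) (p z)) ⁻¹' Ioo (a : ℝ) b) :=
          isOpen_Ioo.preimage (f.2.comp hp)
        obtain ⟨U, hU, hzU, hUs⟩ := (isBasis_countableBasis (ℕ → ℕ)).exists_subset_of_mem_open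
          (show z ∈ _ from hf) ho
        exact ⟨U, ⟨hU, hzU⟩, fun w hw => hUs hw⟩
      · rintro ⟨U, ⟨_, hzU⟩, hf⟩
        exact hf z hzU
    rw [this]
    refine @isOpen_biUnion _ _ (generateFrom (netFam p)) _ _ ?_
    rintro U ⟨hU, _⟩
    apply isOpen_generateFrom_of_mem
    exact ⟨(U, a, b), ⟨hU, trivial, trivial⟩, rfl⟩
  rw [← continuous_id_iff_le]
  refine continuous_induced_rng.mpr ?_
  exact (@continuous_pi_iff _ _ _ (generateFrom (netFam p)) _ _).mpr key

/-- `C_p(X)` is hereditarily separable when `X` is analytic. -/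
lemma exists_countable_dense' (hp : Continuous p) (hs : Function.Surjective p) (A : Set (Cp X)) :
    ∃ D ⊆ A, D.Countable ∧ A ⊆ closure D :=
  dense_of_finer (generateFrom (netFam p)) _ (netFam_le hp hs)
    (@SecondCountableTopology.mk _ (generateFrom (netFam p)) ⟨netFam p, netFam_countable, rfl⟩) A

end Analytic

section Tychonoff

variable {Y : Type v} [TopologicalSpace Y]

/-- Separation of a point from the complement of an open set. -/
lemma exists_sep [CompletelyRegularSpace Y] {y : Y} {O : Set Y} (hO : IsOpen O) (hy : y ∈ O) :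
    ∃ g : Y → ℝ, Continuous g ∧ (∀ z, 0 ≤ g z ∧ g z ≤ 1) ∧ g y = 1 ∧ ∀ z ∉ O, g z = 0 := by
  obtain ⟨f, hf, h0, h1⟩ := CompletelyRegularSpace.completely_regular_isOpen y O hO hy
  refine ⟨fun z => 1 - (f z : ℝ), ?_, ?_, ?_, ?_⟩
  · exact continuous_const.sub (continuous_subtype_val.comp hf)
  · intro z
    have := (f z).2
    constructor <;> linarith [this.1, this.2]
  · simp [h0]
  · intro z hz
    have : f z = 1 := h1 hz
    simp [this]

end Tychonoff

section Main

variable {X : Type u} {Y : Type v} [TopologicalSpace X] [TopologicalSpace Y] {p : (ℕ → ℕ) → X}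

/-- If every continuous function converges along an ultrafilter on `Y`, then the ultrafilter
converges. -/
lemma ultrafilter_converges [CompletelyRegularSpace Y] (hp : Continuous p)
    (hs : Function.Surjective p) (L : Cp X →ₗ[ℝ] Cp Y) (hL : Continuous L)
    (hsurj : Function.Surjective L) (U : Ultrafilter Y)
    (hU : ∀ g : Cp Y, ∃ c : ℝ, Tendsto (g : Y → ℝ) U (𝓝 c)) : ∃ y, (U : Filter Y) ≤ 𝓝 y := by
  by_contra hno
  push Not at hno
  -- functions vanishing near the ultrafilter
  let A : Set (Cp X) := {f | (∀ y, 0 ≤ (L f : Y → ℝ) y ∧ (L f : Y → ℝ) y ≤ 1) ∧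
    ∀ᶠ y in (U : Filter Y), (L f : Y → ℝ) y = 0}
  have hA : ∀ y, ∃ f ∈ A, (L f : Y → ℝ) y = 1 := by
    intro y
    have h1 := hno y
    rw [(nhds_basis_opens y).ge_iff] at h1
    push Not at h1
    obtain ⟨O, ⟨hyO, hO⟩, hOU⟩ := h1
    obtain ⟨g, hg, hg01, hgy, hgO⟩ := exists_sep hO hyO
    obtain ⟨f, hf⟩ := hsurj ⟨g, hg⟩
    have hfg : (L f : Y → ℝ) = g := by rw [hf]
    refine ⟨f, ⟨?_, ?_⟩, ?_⟩
    · rw [hfg]
      exact hg01
    · rw [hfg]
      have : Oᶜ ∈ U := Ultrafilter.compl_mem_iff_notMem.mpr hOU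
      exact mem_of_superset this hgO
    · rw [hfg]
      exact hgy
  obtain ⟨D, hDA, hDc, hD⟩ := exists_countable_dense' hp hs A
  have hDy : ∀ y, ∃ f ∈ D, 0 < (L f : Y → ℝ) y := by
    intro y
    obtain ⟨f, hfA, hf1⟩ := hA y
    have ho : IsOpen {f : Cp X | 0 < (L f : Y → ℝ) y} :=
      isOpen_Ioi.preimage ((continuous_ev y).comp hL)
    obtain ⟨d, hd1, hd2⟩ := mem_closure_iff.mp (hD hfA) _ ho
      (by change 0 < (L f : Y → ℝ) y; rw [hf1]; exact one_pos)
    exact ⟨d, hd2, hd1⟩
  have hne : D.Nonempty := by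
    obtain ⟨y⟩ := (U : Filter Y).nonempty_of_neBot
    obtain ⟨f, hf, _⟩ := hDy y
    exact ⟨f, hf⟩
  obtain ⟨d, hd⟩ := hDc.exists_eq_range hne
  have hdA : ∀ n, d n ∈ A := fun n => hDA (hd ▸ mem_range_self n)
  set h : Y → ℝ := fun y => ∑' n : ℕ, (1 / 2 : ℝ) ^ n * (L (d n) : Y → ℝ) y with hh
  have hgeo : Summable (fun n : ℕ => (1 / 2 : ℝ) ^ n) := summable_geometric_two
  have hbd : ∀ n y, ‖(1 / 2 : ℝ) ^ n * (L (d n) : Y → ℝ) y‖ ≤ (1 / 2 : ℝ) ^ n := by
    intro n y
    have h1 := (hdA n).1 y
    rw [norm_mul, Real.norm_of_nonneg (by positivity), Real.norm_of_nonneg h1.1]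
    exact mul_le_of_le_one_right (by positivity) h1.2
  have hcont : Continuous h := by
    apply continuous_tsum (fun n => continuous_const.mul (L (d n)).2) hgeo hbd
  have hpos : ∀ y, 0 < h y := by
    intro y
    obtain ⟨f, hf, hfy⟩ := hDy y
    rw [hd] at hf
    obtain ⟨n, rfl⟩ := hf
    have hsum : Summable (fun n : ℕ => (1 / 2 : ℝ) ^ n * (L (d n) : Y → ℝ) y) :=
      Summable.of_norm_bounded hgeo (fun n => hbd n y)
    apply hsum.tsum_pos (fun i => mul_nonneg (by positivity) ((hdA i).1 y).1) n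
    exact mul_pos (by positivity) hfy
  have hlim : Tendsto h U (𝓝 0) := by
    have := tendsto_tsum_of_dominated_convergence (𝓕 := (U : Filter Y))
      (f := fun y n => (1 / 2 : ℝ) ^ n * (L (d n) : Y → ℝ) y) (g := fun _ => (0 : ℝ)) hgeo
      (fun n => ?_) (Eventually.of_forall fun y n => hbd n y)
    · rwa [tsum_zero] at this
    · apply Tendsto.congr' _ tendsto_const_nhds
      filter_upwards [(hdA n).2] with y hy
      rw [hy, mul_zero]
  obtain ⟨c, hc⟩ := hU ⟨fun y => (h y)⁻¹, hcont.inv₀ fun y => (hpos y).ne'⟩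
  have h1 : Tendsto (fun y => h y * (h y)⁻¹) U (𝓝 (0 * c)) := hlim.mul hc
  have h2 : Tendsto (fun y => h y * (h y)⁻¹) U (𝓝 1) := by
    apply Tendsto.congr _ tendsto_const_nhds
    intro y
    exact (mul_inv_cancel₀ (hpos y).ne').symm
  have := tendsto_nhds_unique h1 h2
  simp at this

/-- Evaluation of a finite linear combination of point evaluations, with points taken in the
space of irrationals. -/
def comb (p : (ℕ → ℕ) → X) (n : ℕ) (w : (Fin n → ℝ) × (Fin n → (ℕ → ℕ))) (f : Cp X) : ℝ :=
  ∑ i, w.1 i * (f : X → ℝ) (p (w.2 i))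

lemma continuous_comb (hp : Continuous p) (n : ℕ) (f : Cp X) :
    Continuous fun w => comb p n w f := by
  unfold comb
  refine continuous_finsetSum _ fun i _ => ?_
  refine ((continuous_apply i).comp continuous_fst).mul ?_
  exact f.2.comp (hp.comp ((continuous_apply i).comp continuous_snd))

/-- The parameters representing the functional of a point of `Y`. -/
def good (p : (ℕ → ℕ) → X) (L : Cp X →ₗ[ℝ] Cp Y) (n : ℕ) :
    Set ((Fin n → ℝ) × (Fin n → (ℕ → ℕ))) :=
  {w | ∃ y : Y, ∀ f : Cp X, (L f : Y → ℝ) y = comb p n w f}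

lemma good_closed [CompletelyRegularSpace Y] (hp : Continuous p)
    (hs : Function.Surjective p) (L : Cp X →ₗ[ℝ] Cp Y) (hL : Continuous L)
    (hsurj : Function.Surjective L) (n : ℕ) : IsClosed (good p L n) := by
  rw [isClosed_iff_ultrafilter]
  intro w u hu hmem
  obtain ⟨w₀, y₀, _⟩ := u.nonempty_of_mem hmem
  classical
  let F : (Fin n → ℝ) × (Fin n → (ℕ → ℕ)) → Y := fun w =>
    if h : w ∈ good p L n then h.choose else y₀
  have hF : ∀ w ∈ good p L n, ∀ f : Cp X, (L f : Y → ℝ) (F w) = comb p n w f := by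
    intro w hw
    simp only [F, dif_pos hw]
    exact hw.choose_spec
  have hlim : ∀ f : Cp X, Tendsto (fun y => (L f : Y → ℝ) y) (u.map F) (𝓝 (comb p n w f)) := by
    intro f
    rw [Ultrafilter.coe_map, tendsto_map'_iff]
    have h1 : Tendsto (fun w => comb p n w f) u (𝓝 (comb p n w f)) :=
      ((continuous_comb hp n f).tendsto w).mono_left hu
    apply h1.congr'
    filter_upwards [hmem] with w' hw'
    exact (hF w' hw' f).symm
  obtain ⟨y, hy⟩ := ultrafilter_converges hp hs L hL hsurj (u.map F) (by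
    intro g
    obtain ⟨f, rfl⟩ := hsurj g
    exact ⟨_, hlim f⟩)
  refine ⟨y, fun f => ?_⟩
  have h2 : Tendsto (fun y => (L f : Y → ℝ) y) (u.map F) (𝓝 ((L f : Y → ℝ) y)) :=
    ((L f).2.tendsto y).mono_left hy
  exact tendsto_nhds_unique h2 (hlim f)

/-- A continuous linear surjection of `C_p(X)` onto `C_p(Y)` with `X` analytic and `Y` nonempty
forces `Y` to be analytic. -/
theorem analytic_of_surjection [T35Space Y] [Nonempty Y] (hX : IsAnalytic X)
    (L : Cp X →ₗ[ℝ] Cp Y) (hL : Continuous L) (hsurj : Function.Surjective L) : IsAnalytic Y := by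
  obtain ⟨p, hp, hs⟩ := hX
  obtain ⟨y₀⟩ := ‹Nonempty Y›
  classical
  let F : ∀ n : ℕ, (Fin n → ℝ) × (Fin n → (ℕ → ℕ)) → Y := fun n w =>
    if h : w ∈ good p L n then h.choose else y₀
  have hF : ∀ n, ∀ w ∈ good p L n, ∀ f : Cp X, (L f : Y → ℝ) (F n w) = comb p n w f := by
    intro n w hw
    simp only [F, dif_pos hw]
    exact hw.choose_spec
  have hcont : ∀ n, ContinuousOn (F n) (good p L n) := by
    intro n w hw
    rw [ContinuousWithinAt, (nhds_basis_opens (F n w)).tendsto_right_iff]
    rintro O ⟨hwO, hO⟩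
    obtain ⟨g, hg, _, hg1, hg0⟩ := exists_sep hO hwO
    obtain ⟨f, hf⟩ := hsurj ⟨g, hg⟩
    have hfg : (L f : Y → ℝ) = g := by rw [hf]
    have h1 : comb p n w f = 1 := by
      rw [← hF n w hw f, hfg, hg1]
    have h2 : ∀ᶠ w' in 𝓝[good p L n] w, 0 < comb p n w' f := by
      apply ((continuous_comb hp n f).tendsto w).mono_left nhdsWithin_le_nhds |>.eventually
      exact lt_mem_nhds (by rw [h1]; exact one_pos)
    filter_upwards [h2, self_mem_nhdsWithin] with w' h3 h4
    by_contra h5
    rw [← hF n w' h4 f, hfg, hg0 _ h5] at h3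
    exact lt_irrefl _ h3
  have hcover : (⋃ n, F n '' good p L n) = univ := by
    rw [eq_univ_iff_forall]
    intro y
    obtain ⟨n, c, x, hφ⟩ := functional_eq ((ev y).comp L) ((continuous_ev y).comp hL)
    choose z hz using fun i => hs (x i)
    have hw : ∀ f : Cp X, (L f : Y → ℝ) y = comb p n (c, z) f := by
      intro f
      have := hφ f
      simp only [LinearMap.comp_apply, ev_apply] at this
      rw [this]
      simp [comb, hz]
    have hmem : (c, z) ∈ good p L n := ⟨y, hw⟩
    refine mem_iUnion.mpr ⟨n, (c, z), hmem, ?_⟩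
    by_contra hne
    obtain ⟨g, hg, _, hg1, hg0⟩ := exists_sep (isOpen_compl_singleton (x := F n (c, z)))
      (show y ∈ ({F n (c, z)}ᶜ : Set Y) from fun e => hne e.symm)
    obtain ⟨f, hf⟩ := hsurj ⟨g, hg⟩
    have hfg : (L f : Y → ℝ) = g := by rw [hf]
    have h1 := hw f
    rw [← hF n _ hmem f, hfg, hg1, hg0 _ (fun h => h rfl)] at h1
    exact one_ne_zero h1
  have hana : MeasureTheory.AnalyticSet (univ : Set Y) := by
    rw [← hcover]
    apply MeasureTheory.AnalyticSet.iUnion
    intro n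
    exact (good_closed hp hs L hL hsurj n).analyticSet.image_of_continuousOn (hcont n)
  rw [MeasureTheory.AnalyticSet] at hana
  rcases hana with h | ⟨f, hf, hr⟩
  · exact absurd (h ▸ mem_univ y₀) (notMem_empty _)
  · exact ⟨f, hf, range_eq_univ.mp hr⟩

/-- **Question Q1.** Let `X` and `Y` be Tychonoff spaces, `X` analytic. If `C_p(X)` admits a linear
condensation onto `C_p(Y)` and `C_p(Y)` admits a linear condensation onto `C_p(X)`, then `Y` is
analytic. -/
theorem result {X : Type u} {Y : Type v} [TopologicalSpace X] [TopologicalSpace Y]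
    [T35Space X] [T35Space Y] (hX : IsAnalytic X)
    (hXY : ∃ L : Cp X →ₗ[ℝ] Cp Y, IsCondensation L)
    (_hYX : ∃ M : Cp Y →ₗ[ℝ] Cp X, IsCondensation M) : IsAnalytic Y := by
  obtain ⟨L, hL, hbij⟩ := hXY
  have hY : Nonempty Y := by
    by_contra hemp
    rw [not_nonempty_iff] at hemp
    obtain ⟨p, _, _⟩ := id hX
    have h1 : (⟨fun _ => (1 : ℝ), continuous_const⟩ : Cp X) = 0 := by
      apply hbij.1
      ext y
      exact hemp.elim y
    have h2 := congrArg (fun f : Cp X => (f : X → ℝ) (p 0)) h1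
    simp at h2
  exact analytic_of_surjection hX L hL hbij.2

end Main

end Pool.Agent.Results.MP_1f8704_gt.LinearCondensation
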